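import Pool.Agent.Run7.h972.Alm.Main

set_option autoImplicit false

/-!
# Properties given by subgraphs with at most `n ^ δ` vertices, for almost all `n` (MP_257582_lc)

A divisibility criterion for evasiveness, with no bound on the chromatic number and with minimal
graphs which may grow with `n`, and its consequence for almost all numbers `n` of vertices.

* Let a prime power `p ^ c ≥ h` divide `n`, let `p - 1` be coprime to `2 ^ 2 ^ e - 1` and let
  `2 p ^ (c + 1) 2 ^ 2 ^ e ≤ n`. Then every non-trivial monotone isomorphism-invariant property of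
  graphs on `n` vertices all of whose minimal graphs have at most `h` non-isolated vertices and
  which holds for some `2 ^ 2 ^ e`-colourable graph is evasive.
* For every `ε > 0` there is `δ > 0` such that for all large `N`, all but at most `ε N` of the
  numbers `n < N` have this property: every non-trivial monotone isomorphism-invariant property of
  graphs on `n` vertices all of whose minimal graphs have at most `n ^ δ` non-isolated vertices is
  evasive. In particular, for every function `h(n) = n ^ o(1)`, for almost all `n` (in the sense of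
  density) all properties given by minimal graphs with at most `h(n)` vertices are evasive.
  Nothing unproved is assumed.

Proof.  For the first part, the `n` vertices are cut into fields of orders `p ^ c` and `p ^ (c + 1)`,
whose number `K` can be prescribed modulo `2 ^ 2 ^ e - 1`. The group generated by the translations
of the fields and one element which multiplies all the fields by generators is a `p`-group extended
by a cyclic group; it is transitive on the pairs in every field and on the pairs between any two
fields. So if the property is not evasive, then the signed number of the graphs on `K` vertices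
whose blow-ups do not have the property vanishes. Modulo 2 this number is a periodic function of
`K` with the period `2 ^ 2 ^ e - 1` (ring of block types of `CubicalPartition`), and for a power of 2
it is 1. For the second part: primes `p ≡ 2` modulo `2 ^ 2 ^ K - 1` (prime number theorem in
progressions) of which those with `p ≡ 1` modulo some prime divisor of a later Fermat number are
removed (Brun–Titchmarsh) are a positive proportion of all primes in every large dyadic window, so
the sum of `1 / p` over the admissible primes between `n ^ δ` and `n ^ (1 / 4)` exceeds `4 / ε`, and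
by Turán's second moment method almost all `n` are divisible by such a prime.
-/

namespace Pool.Agent.Results.MP_257582_lc.AlmostAllOrders

/-- Every decision strategy `σ` (the next pair to be queried depends only on the answers to the
queries made so far) needs all `n.choose 2` queries: there are two graphs that agree on the first
`n.choose 2 - 1` queried pairs, one with and one without `P`. -/
def Evasive {n : ℕ} (P : SimpleGraph (Fin n) → Prop) : Prop :=
  ∀ σ : Finset (Sym2 (Fin n)) → SimpleGraph (Fin n) → Sym2 (Fin n),
    (∀ (Q : Finset (Sym2 (Fin n))) (G H : SimpleGraph (Fin n)),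
        (∀ e ∈ Q, (e ∈ G.edgeSet ↔ e ∈ H.edgeSet)) → σ Q G = σ Q H) →
    ∃ G H : SimpleGraph (Fin n),
      (∀ e ∈ (fun Q : Finset (Sym2 (Fin n)) => insert (σ Q G) Q)^[n.choose 2 - 1]
            (∅ : Finset (Sym2 (Fin n))),
          (e ∈ G.edgeSet ↔ e ∈ H.edgeSet)) ∧ P G ∧ ¬ P H

/-- `P` is monotone, invariant under relabelling and non-trivial, and every graph with `P` has a
subgraph with `P` with at most `x` non-isolated vertices. -/
def GivenBy {n : ℕ} (P : SimpleGraph (Fin n) → Prop) (x : ℝ) : Prop :=
  (∀ G H : SimpleGraph (Fin n), G ≤ H → P G → P H) ∧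
  (∀ (σ : Fin n ≃ Fin n) (G : SimpleGraph (Fin n)), P G → P (G.map σ.toEmbedding)) ∧
  (∃ G : SimpleGraph (Fin n), P G) ∧ (∃ G : SimpleGraph (Fin n), ¬ P G) ∧
  ∀ G : SimpleGraph (Fin n), P G → ∃ H ≤ G, P H ∧ (H.support.ncard : ℝ) ≤ x

/-- **A criterion for evasiveness and its consequence for almost all numbers of vertices.** -/
theorem result :
    (∀ (n h e p c : ℕ), p.Prime → 1 ≤ c → p ^ c ∣ n → h ≤ p ^ c →
      Nat.Coprime (p - 1) (2 ^ 2 ^ e - 1) → 2 * p ^ (c + 1) * 2 ^ 2 ^ e ≤ n →
      ∀ P : SimpleGraph (Fin n) → Prop, GivenBy P h →
        (∃ G : SimpleGraph (Fin n), P G ∧ G.Colorable (2 ^ 2 ^ e)) → Evasive P) ∧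
    ∀ ε : ℝ, 0 < ε → ∃ δ : ℝ, 0 < δ ∧ ∃ N₀ : ℕ, ∀ N : ℕ, N₀ ≤ N →
      ({n : ℕ | n < N ∧ ¬ ∀ P : SimpleGraph (Fin n) → Prop,
          GivenBy P ((n : ℝ) ^ δ) → Evasive P}.ncard : ℝ) ≤ ε * N := by
  classical
  refine ⟨?_, ?_⟩
  · intro n h e p c hp hc hpn hh hcop hbig P hP hcol σ hσ
    obtain ⟨hmono, hiso, -, h0, hsmall⟩ := hP
    refine Run7.h972.Alm.crit hp hc hpn hh hcop hbig P hmono hiso hcol h0 ?_ σ hσ
    intro G hG
    obtain ⟨H, hH1, hH2, hH3⟩ := hsmall G hG
    exact ⟨H, hH1, hH2, by exact_mod_cast hH3⟩
  · intro ε hε
    obtain ⟨δ, hδ, N₀, h⟩ := Run7.h972.Alm.main ε hε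
    refine ⟨δ, hδ, N₀, fun N hN => ?_⟩
    refine le_trans ?_ (h N hN)
    have h1 : {n : ℕ | n < N ∧ ¬ ∀ P : SimpleGraph (Fin n) → Prop,
          GivenBy P ((n : ℝ) ^ δ) → Evasive P} ⊆
        (((Finset.range N).filter (fun n => ¬ Run7.h972.Alm.Sm n ((n : ℝ) ^ δ)) : Finset ℕ) :
          Set ℕ) := by
      rintro n ⟨hn1, hn2⟩
      rw [Finset.mem_coe, Finset.mem_filter, Finset.mem_range]
      refine ⟨hn1, fun hS => hn2 ?_⟩
      rintro P ⟨hmono, hiso, h1, h0, hsmall⟩
      exact hS P hmono hiso h1 h0 hsmall
    have h2 := Set.ncard_le_ncard h1 (Finset.finite_toSet _)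
    rw [Set.ncard_coe_finset] at h2
    exact_mod_cast h2

end Pool.Agent.Results.MP_257582_lc.AlmostAllOrders
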