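import Mathlib
import Pool.Agent.Run7.h972.Final

set_option autoImplicit false

/-!
# Between pancyclic and 1-tough every property is evasive, for all numbers of vertices (MP_257582_lc)

Let `n ≥ 3` be arbitrary (no arithmetic condition, no condition that `n` is large). Every monotone
isomorphism-invariant property of graphs on `n` vertices that contains all pancyclic graphs, and all
members of which are 1-tough, is evasive. Pancyclic graphs are Hamiltonian and Hamiltonian graphs are
1-tough, so to be Hamiltonian, to be pancyclic, and to be 1-tough are evasive for every `n ≥ 3`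
(`hamiltonian`, `pancyclic`, `oneTough` below).

The starting files have Hamiltonicity unless `n` and `n - 1` are both divisible by the squares of two
primes (`SpanningWheels`, `LongCycleSandwich`).

Proof. Suppose that the property is not evasive. By symmetry the first query of a short strategy can be
assumed to be any given pair `{u, v}`; let the answer be yes. The remaining decision problem on the
other pairs is monotone, invariant under all permutations that fix `u` and `v`, and again not
evasive (`GP1`). The other `n - 2` vertices are cut into two blocks `A`, `B` of coprime squarefree sizes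
`|A| ≥ |B| + 2`, `|B| ≥ 2`, on which cyclic groups act regularly; the product of these groups is cyclic.
So the signed sum of the values of the property over the invariant graphs with the edge `u v`
vanishes (`relation`, after Kahn, Saks and Sturtevant). An invariant graph is given by the four stars
(which of `u`, `v` is joined to which block), by the join of the blocks (present or not), and by two
Cayley graphs inside the blocks.
* If the blocks are joined, then the graph is pancyclic or not 1-tough, and this depends only on the
  stars and on the number of components inside `A` (interleaving of paths with vertices of `B`,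
  `seg`). In particular it does not depend on the Cayley graph inside `B`, and these configurations
  cancel.
* If the blocks are not joined, then the graph is pancyclic if all stars are present and both Cayley
  graphs are connected, and otherwise it is not 1-tough.
So the sum is the product over the two blocks of the signed numbers of generating symmetric subsets,
which does not vanish (`Gm_top_ne`). It remains to see that every `N ≥ 12` is the sum of two coprime
squarefree numbers `b ≥ 2` and `N - b ≥ b + 2`: for `N ≥ 2 ^ 20` this is an explicit sieve (`large`), for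
smaller `N` the kernel checks it with bit masks (`check`). For `n ≤ 13` the cones over Cayley graphs
of the starting files suffice.
-/

namespace Pool.Agent.Results.MP_257582_lc.HamiltonianAllOrders

/-- Every decision strategy `σ` (the next pair to be queried depends only on the answers to the
queries made so far) needs all `n.choose 2` queries: there are two graphs that agree on the first
`n.choose 2 - 1` queried pairs, one with and one without `P`. -/
def Evasive {n : ℕ} (P : SimpleGraph (Fin n) → Prop) : Prop :=
  ∀ σ : Finset (Sym2 (Fin n)) → SimpleGraph (Fin n) → Sym2 (Fin n),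
    (∀ (Q : Finset (Sym2 (Fin n))) (G H : SimpleGraph (Fin n)),
        (∀ e ∈ Q, (e ∈ G.edgeSet ↔ e ∈ H.edgeSet)) → σ Q G = σ Q H) →
    ∃ G H : SimpleGraph (Fin n),
      (∀ e ∈ (fun Q : Finset (Sym2 (Fin n)) => insert (σ Q G) Q)^[n.choose 2 - 1]
            (∅ : Finset (Sym2 (Fin n))),
          (e ∈ G.edgeSet ↔ e ∈ H.edgeSet)) ∧ P G ∧ ¬ P H

/-- `G` is pancyclic: it contains cycles of all lengths from `3` to the number of vertices. -/
def Pancyclic {n : ℕ} (G : SimpleGraph (Fin n)) : Prop :=
  ∀ t, 3 ≤ t → t ≤ n → (SimpleGraph.cycleGraph t).IsContained G

/-- `G` is 1-tough: if the deletion of a set `X` of vertices leaves more than one component, then it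
leaves at most `|X|` components. -/
def OneTough {n : ℕ} (G : SimpleGraph (Fin n)) : Prop :=
  ∀ X : Finset (Fin n), 1 < Nat.card (G.induce {v | v ∉ X}).ConnectedComponent →
    Nat.card (G.induce {v | v ∉ X}).ConnectedComponent ≤ X.card

/-- **Between pancyclic and 1-tough every property is evasive, for every number of vertices.** -/
theorem result (n : ℕ) (hn : 3 ≤ n) (P : SimpleGraph (Fin n) → Prop)
    (hmono : ∀ G H : SimpleGraph (Fin n), G ≤ H → P G → P H)
    (hiso : ∀ (σ : Fin n ≃ Fin n) (G : SimpleGraph (Fin n)), P G → P (G.map σ.toEmbedding))
    (hlow : ∀ G : SimpleGraph (Fin n), Pancyclic G → P G)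
    (hup : ∀ G : SimpleGraph (Fin n), P G → OneTough G) : Evasive P := by
  intro σ hσ
  by_contra hcon
  have hGP : Pool.Agent.H119R2.Kp.GP n (n.choose 2 - 1) P := by
    refine ⟨hmono, hiso, Pool.Agent.H119R2.Kp.dec_of_strategy _ P σ hσ fun G H hGH hPG => ?_⟩
    by_contra hPH
    exact hcon ⟨G, H, hGH, hPG, hPH⟩
  exact Run7.h972.Ham.main hn hGP hlow hup

/-- Hamiltonian graphs are 1-tough -/
theorem tough_of_ham {n : ℕ} (hn : 3 ≤ n) (G : SimpleGraph (Fin n)) (h : G.IsHamiltonian) :
    OneTough G :=
  Run7.h972.Ham.tough_of_cycle hn G ((Run7.h972.Ham.ham_iff hn G).1 h)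

/-- To be Hamiltonian is evasive for every `n ≥ 3`. -/
theorem hamiltonian (n : ℕ) (hn : 3 ≤ n) :
    Evasive (fun G : SimpleGraph (Fin n) => G.IsHamiltonian) := by
  refine result n hn _ (fun G H h hG => hG.mono h) (fun σ G hG => ?_) (fun G hG => ?_)
    fun G hG => tough_of_ham hn G hG
  · rw [Run7.h972.Ham.ham_iff hn] at hG ⊢
    exact Run7.h972.Ham.cyc_map σ hG
  · rw [Run7.h972.Ham.ham_iff hn]
    exact hG n hn le_rfl

/-- To be pancyclic is evasive for every `n ≥ 3`. -/
theorem pancyclic (n : ℕ) (hn : 3 ≤ n) :
    Evasive (fun G : SimpleGraph (Fin n) => Pancyclic G) :=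
  result n hn _ (fun _ _ h hG t h1 h2 => Run7.h972.Ham.cyc_mono h (hG t h1 h2))
    (fun σ _ hG t h1 h2 => Run7.h972.Ham.cyc_map σ (hG t h1 h2)) (fun _ hG => hG)
    fun G hG => Run7.h972.Ham.tough_of_cycle hn G (hG n hn le_rfl)

/-- To be 1-tough is evasive for every `n ≥ 3`. -/
theorem oneTough (n : ℕ) (hn : 3 ≤ n) :
    Evasive (fun G : SimpleGraph (Fin n) => OneTough G) :=
  result n hn _ (fun _ _ h hG => Run7.h972.Ham.OneTough.mono h hG)
    (fun σ _ hG => Run7.h972.Ham.OneTough.map hG σ)
    (fun G hG => Run7.h972.Ham.tough_of_cycle hn G (hG n hn le_rfl)) fun _ hG => hG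

end Pool.Agent.Results.MP_257582_lc.HamiltonianAllOrders
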