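import Pool.Agent.Run7.h972.Small.Main

set_option autoImplicit false

/-!
# Properties given by subgraphs with at most `2 ^ 18` vertices are evasive for all large `n` (MP_257582_lc)

Let `n ≥ 2 ^ 30000`. Every non-trivial monotone isomorphism-invariant property of graphs on `n`
vertices all of whose minimal members have at most `2 ^ 18 = 262144` non-isolated vertices is
evasive. In other words: for every family of graphs, each with an edge and with at most `2 ^ 18`
vertices, containing a member of the family is evasive for ALL `n ≥ 2 ^ 30000`. In particular
this holds for containing a fixed graph `H` with an edge and at most `2 ^ 18` vertices, of any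
chromatic number (`subgraph` below). No hypothesis from number theory is assumed.

(Chakrabarti, Khot and Shi have this for `n` in an arithmetic progression, and for bipartite `H`;
Babai, Banerjee, Kulkarni and Naik for all large `n` under Chowla's conjecture on Dirichlet primes.
The starting files `NearBipartite` and `CubicalPartition` need a member with a partition into few
classes which induce subgraphs of hypercubes; complete multipartite graphs with large parts, for
example, do not have one.)

Proof.  The vertex set is cut into fields of orders `2 ^ 18` and `2 ^ 19` and at most 23 blocks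
`ZMod ℓ` with distinct primes `ℓ = 2 * 3 ^ k + 1 > 2 ^ 19`. There are at least 23 such primes with
`k ≤ 17720`, and every residue modulo `2 ^ 18` is a sum of some of them (both facts are checked by
the kernel), so this is possible for all large `n`, and the number `K` of blocks can be prescribed
modulo `3 ^ 27 - 1`. The group which is generated by the translations of the fields, one element
which multiplies the fields by generators and rotates the prime blocks, and the multiplications of
the prime blocks by the elements of order `3 ^ k` is of Oliver type (a 2-group, extended by a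
cyclic group, extended by a 3-group), and it is transitive on the pairs in every block and on the
pairs between any two blocks. So if the property is not evasive, then 3 divides the signed number
of the graphs on `K` vertices whose blow-ups do not have the property, that is, which are not
homomorphic images of members. If `3 ^ m` is the largest power of 3 below the least chromatic
number of a member, then this number is `(-1) ^ m` modulo 3 for `K = 3 ^ (m + 1)`, and modulo 3 it
depends only on `K` modulo `3 ^ 27 - 1`, by the ring of block types of `CubicalPartition`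
(`t ^ 3 = t - J t`, `J t` the join of three copies of `t`).
-/

namespace Pool.Agent.Results.MP_257582_lc.SmallSubgraphs

/-- Every decision strategy `σ` (the next pair to be queried depends only on the answers to the
queries made so far) needs all `n.choose 2` queries: there are two graphs that agree on the first
`n.choose 2 - 1` queried pairs, one with and one without `P`. -/
def Evasive {n : ℕ} (P : SimpleGraph (Fin n) → Prop) : Prop :=
  ∀ σ : Finset (Sym2 (Fin n)) → SimpleGraph (Fin n) → Sym2 (Fin n),
    (∀ (Q : Finset (Sym2 (Fin n))) (G H : SimpleGraph (Fin n)),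
        (∀ e ∈ Q, (e ∈ G.edgeSet ↔ e ∈ H.edgeSet)) → σ Q G = σ Q H) →
    ∃ G H : SimpleGraph (Fin n),
      (∀ e ∈ (fun Q : Finset (Sym2 (Fin n)) => insert (σ Q G) Q)^[n.choose 2 - 1]
            (∅ : Finset (Sym2 (Fin n))),
          (e ∈ G.edgeSet ↔ e ∈ H.edgeSet)) ∧ P G ∧ ¬ P H

/-- **Properties given by subgraphs with at most `2 ^ 18` non-isolated vertices.** For all
`n ≥ 2 ^ 30000` every non-trivial monotone isomorphism-invariant property `P` of graphs on `n`
vertices such that each graph with `P` has a subgraph with `P` with at most `2 ^ 18` non-isolated
vertices is evasive. -/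
theorem result (n : ℕ) (hn : 2 ^ 30000 ≤ n) (P : SimpleGraph (Fin n) → Prop)
    (hmono : ∀ G H : SimpleGraph (Fin n), G ≤ H → P G → P H)
    (hiso : ∀ (σ : Fin n ≃ Fin n) (G : SimpleGraph (Fin n)), P G → P (G.map σ.toEmbedding))
    (h1 : ∃ G : SimpleGraph (Fin n), P G) (h0 : ∃ G : SimpleGraph (Fin n), ¬ P G)
    (hsmall : ∀ G : SimpleGraph (Fin n), P G → ∃ H ≤ G, P H ∧ H.support.ncard ≤ 2 ^ 18) :
    Evasive P :=
  fun s hs => Run7.h972.Small.main hn P hmono hiso h1 h0 hsmall s hs

/-- Containing a fixed graph with an edge and at most `2 ^ 18` vertices is evasive for all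
`n ≥ 2 ^ 30000`. -/
theorem subgraph (n : ℕ) (hn : 2 ^ 30000 ≤ n) (k : ℕ) (hk : k ≤ 2 ^ 18)
    (F : SimpleGraph (Fin k)) (hF : F ≠ ⊥) :
    Evasive (fun G : SimpleGraph (Fin n) => F.IsContained G) := by
  have hkn : k ≤ n := by
    refine le_trans ?_ hn
    exact hk.trans (Nat.pow_le_pow_right (by norm_num) (by norm_num))
  refine result n hn _ (fun G H h hG => hG.trans (SimpleGraph.IsContained.of_le h))
    (fun σ G hG => hG.trans ⟨(SimpleGraph.Iso.map σ G).toCopy⟩) ?_ ?_ ?_
  · refine ⟨⊤, ⟨⟨⟨Fin.castLE hkn, ?_⟩, Fin.castLE_injective hkn⟩⟩⟩
    intro u v huv
    exact fun h => huv.ne (Fin.castLE_injective hkn h)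
  · refine ⟨⊥, ?_⟩
    rintro ⟨f⟩
    apply hF
    rw [eq_bot_iff]
    intro u v huv
    exact (f.toHom.map_adj huv).elim
  · rintro G ⟨f⟩
    let g : Fin k ↪ Fin n := ⟨fun x => f x, f.injective⟩
    refine ⟨F.map g, ?_, ⟨⟨⟨fun x => g x, ?_⟩, g.injective⟩⟩, ?_⟩
    · rw [SimpleGraph.map_le_iff_le_comap]
      intro x y hxy
      exact f.toHom.map_adj hxy
    · intro x y hxy
      exact (SimpleGraph.map_adj g F (g x) (g y)).2 ⟨x, y, hxy, rfl, rfl⟩
    · have h2 : (F.map g).support ⊆ Set.range g := by
        rintro x ⟨y, hxy⟩
        obtain ⟨u, v, -, rfl, -⟩ := (SimpleGraph.map_adj g F x y).1 hxy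
        exact ⟨u, rfl⟩
      calc (F.map g).support.ncard ≤ (Set.range g).ncard :=
            Set.ncard_le_ncard h2 (Set.toFinite _)
        _ = k := by
            rw [← Set.image_univ, Set.ncard_image_of_injective _ g.injective, Set.ncard_univ,
              Nat.card_eq_fintype_card, Fintype.card_fin]
        _ ≤ 2 ^ 18 := hk

end Pool.Agent.Results.MP_257582_lc.SmallSubgraphs
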